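import Pool.Agent.J4.H56.FM.Main

/-!
# The exact index of all numbers `2 ^ s ± 1` modulo a Fermat prime, and Pepin tests in these bases

Let `m ≥ 4`, `F = 2 ^ (2 ^ m) + 1`, and let `s = 2 ^ j c` with `c` odd and `1 ≤ j < m` (for `s` odd see
the starting result `MersenneIndex`; for `2 ^ m ∣ s` the number `2 ^ s` is `± 1` modulo `F`).

* If `2 ^ j ≤ m + 2`, then `F` is prime if and only if `(2 ^ s - 1) ^ ((F - 1) / 2 ^ (2 ^ j - 1)) = -1`
  modulo `F`, and the same with `2 ^ s + 1`; if `F` is prime, the order of `2 ^ s ± 1` modulo `F` is exactly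
  `2 ^ (2 ^ m - 2 ^ j + 2)`. For `j = 1` and `s = 2` this is Pepin's test (bases `3` and `5`); for
  `c = 1` the bases `2 ^ s + 1` are the smaller Fermat numbers.
* If `2 ^ j ≥ m + 3` and `F` is prime, then `2 ^ s ± 1` are `2 ^ (m + 1)`-th powers modulo `F`.
* For `j ≥ 2` the index of `2 ^ s ± 1` modulo `2 ^ (m + 1)` is given by an explicit truncated `2`-adic
  logarithm of `1 ± 2 ^ (2 ^ j)` with signs.

Proof. `2 ^ (2 ^ j c) - 1` is the norm `∏ (1 - 2 ^ (c + 2 ^ (m - j + 1) i))` over the residues `i` modulo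
`2 ^ j`, because `2 ^ (2 ^ (m - j + 1))` is a primitive `2 ^ j`-th root of unity modulo `F`. All exponents
here are odd, so the index of each factor is known (`MersenneIndex`): a logarithmic series with the signs
`± 1` according to the position of `k / r` modulo `2 ^ (m + 1)`. In the sum over `i` the terms with
`2 ^ j ∤ k` cancel up to a multiple of `2 ^ (m + 1)`, and the remaining contributions of `k = 1, 2, 4`
are evaluated modulo `2 ^ (m + 3)`.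
-/

set_option autoImplicit false

namespace Pool.Agent.Results.MP_37e5fa_nt.SumsOfTwoPowers

open Finset

/-- The sign `ε(k / s)`: it is `+1` if the least residue of `k / s` modulo `2 ^ (m + 1)` is less than
`2 ^ m`, and `-1` otherwise. -/
def sgn (m s k : ℕ) : ℤ :=
  if ((k : ZMod (2 ^ (m + 1))) * (s : ZMod (2 ^ (m + 1)))⁻¹).val < 2 ^ m then 1 else -1

/-- `a ≡ b` modulo `2 ^ (m + 3)` in the ring of rational numbers with odd denominator. -/
def Cong (m : ℕ) (a b : ℚ) : Prop :=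
  ∃ d n : ℤ, Odd d ∧ (d : ℚ) * (a - b) = 2 ^ (m + 3) * n

/-- The sum over `1 ≤ r ≤ m + 2` of `t ^ r ε(2 ^ j r / c) 2 ^ (2 ^ j r) / r`. -/
def logSum (t : ℚ) (m j c : ℕ) : ℚ :=
  ∑ r ∈ Icc 1 (m + 2), t ^ r * (sgn m c (2 ^ j * r) : ℚ) * 2 ^ (2 ^ j * r) / r

/-- The correction, which occurs only for `j = 2`. -/
def corr (m j : ℕ) : ℚ := if j = 2 then 3 * 2 ^ (m + 1) else 0

/-- The index of `2 ^ (2 ^ j c) - 1`. -/
def IndMinus (m j c E : ℕ) : Prop :=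
  Cong m (4 * E) (((c : ℚ) - 2 ^ (m - j)) * logSum 1 m j c + corr m j)

/-- The index of `2 ^ (2 ^ j c) + 1`. -/
def IndPlus (m j c E : ℕ) : Prop :=
  Cong m (4 * E) ((c : ℚ) * logSum (-1) m j c + corr m j)

/-- The index of the Fermat number `F_j`. -/
def IndFermat (m j E : ℕ) : Prop :=
  Cong m (4 * E) (∑ r ∈ Icc 1 (m + 2), (-1) ^ r * 2 ^ (2 ^ j * r) / (r : ℚ) + corr m j)

lemma logSum_eq (t : ℚ) (m j c : ℕ) : logSum t m j c =
    ∑ r ∈ range (m + 2), t ^ (r + 1) *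
      ((Pool.Agent.Y875.FP.sgn m c (2 ^ j * (r + 1)) : ℚ) *
        ((2 : ℚ) ^ (2 ^ j * (r + 1)) / (r + 1))) := by
  unfold logSum
  have h2 : Finset.Icc 1 (m + 2) = Finset.Ico 1 (m + 2 + 1) := by
    ext k
    simp only [Finset.mem_Icc, Finset.mem_Ico]
    omega
  rw [h2, Finset.sum_Ico_eq_sum_range, Nat.add_sub_cancel]
  refine Finset.sum_congr rfl fun k _ => ?_
  rw [add_comm 1 k]
  have h3 : sgn m c (2 ^ j * (k + 1)) = Pool.Agent.Y875.FP.sgn m c (2 ^ j * (k + 1)) := rfl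
  rw [h3]
  push_cast
  ring

lemma indMinus_iff (m h j c E : ℕ) (hm : m = h + j) :
    IndMinus m j c E ↔ Pool.Agent.J4.H56.FM.Cong m h j c E := by
  unfold IndMinus Pool.Agent.J4.H56.FM.Cong Pool.Agent.J4.H56.FM.LS
  rw [logSum_eq, hm, Nat.add_sub_cancel]
  simp only [one_pow, one_mul]
  exact Iff.rfl

lemma indPlus_iff (m h j c E : ℕ) (hm : m = h + j) (hh : 1 ≤ h) (hc : Odd c) :
    IndPlus m j c E ↔ Pool.Agent.J4.H56.FM.Cong m h j (c + 2 ^ h) E := by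
  rw [Pool.Agent.J4.H56.FM.cong_plus hm hh hc]
  unfold IndPlus
  rw [logSum_eq]
  exact Iff.rfl

lemma indFermat_iff (m j E : ℕ) (hm : 4 ≤ m) : IndFermat m j E ↔ IndPlus m j 1 E := by
  have h1 := Pool.Agent.J4.H56.FM.LS_one (m := m) (j := j) hm (fun r => (-1) ^ (r + 1))
  have e1 : ∑ r ∈ Icc 1 (m + 2), (-1) ^ r * 2 ^ (2 ^ j * r) / (r : ℚ) =
      ∑ r ∈ range (m + 2), (((-1) ^ (r + 1) : ℤ) : ℚ) *
        ((2 : ℚ) ^ (2 ^ j * (r + 1)) / (r + 1)) := by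
    have h2 : Finset.Icc 1 (m + 2) = Finset.Ico 1 (m + 2 + 1) := by
      ext k
      simp only [Finset.mem_Icc, Finset.mem_Ico]
      omega
    rw [h2, Finset.sum_Ico_eq_sum_range, Nat.add_sub_cancel]
    refine Finset.sum_congr rfl fun k _ => ?_
    rw [add_comm 1 k]
    push_cast
    ring
  have e2 : logSum (-1) m j 1 = ∑ r ∈ range (m + 2), (((-1) ^ (r + 1) : ℤ) : ℚ) *
      ((Pool.Agent.Y875.FP.sgn m 1 (2 ^ j * (r + 1)) : ℚ) *
        ((2 : ℚ) ^ (2 ^ j * (r + 1)) / (r + 1))) := by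
    rw [logSum_eq]
    push_cast
    rfl
  unfold IndFermat IndPlus
  rw [e1, e2]
  set A := ∑ r ∈ range (m + 2), (((-1) ^ (r + 1) : ℤ) : ℚ) *
      ((Pool.Agent.Y875.FP.sgn m 1 (2 ^ j * (r + 1)) : ℚ) *
        ((2 : ℚ) ^ (2 ^ j * (r + 1)) / (r + 1)))
  set B := ∑ r ∈ range (m + 2), (((-1) ^ (r + 1) : ℤ) : ℚ) *
        ((2 : ℚ) ^ (2 ^ j * (r + 1)) / (r + 1))
  have h3 : A - B ∈ Pool.Agent.J4.H56.FM.Zt (m + 3) := h1
  constructor
  · intro h4
    have h4' : 4 * (E : ℚ) - (B + corr m j) ∈ Pool.Agent.J4.H56.FM.Zt (m + 3) := h4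
    have h5 := AddSubgroup.sub_mem _ h4' h3
    have h6 : 4 * (E : ℚ) - (((1 : ℕ) : ℚ) * A + corr m j) ∈
        Pool.Agent.J4.H56.FM.Zt (m + 3) := by
      convert h5 using 1
      push_cast
      ring
    exact h6
  · intro h4
    have h4' : 4 * (E : ℚ) - (((1 : ℕ) : ℚ) * A + corr m j) ∈
        Pool.Agent.J4.H56.FM.Zt (m + 3) := h4
    have h5 := AddSubgroup.add_mem _ h4' h3
    have h6 : 4 * (E : ℚ) - (B + corr m j) ∈ Pool.Agent.J4.H56.FM.Zt (m + 3) := by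
      convert h5 using 1
      push_cast
      ring
    exact h6

theorem result (m j c : ℕ) (hm : 4 ≤ m) (hj : 1 ≤ j) (hjm : j < m) (hc : Odd c)
    (b : ℤ) (hb : b = 2 ^ (2 ^ j * c) - 1 ∨ b = 2 ^ (2 ^ j * c) + 1) :
    -- a Pepin test in the base `b`, and the exact order of `b`
    (2 ^ j ≤ m + 2 →
      ((Nat.fermatNumber m).Prime ↔
        (b : ZMod (Nat.fermatNumber m)) ^ ((Nat.fermatNumber m - 1) / 2 ^ (2 ^ j - 1)) = -1) ∧
      ((Nat.fermatNumber m).Prime →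
        orderOf (b : ZMod (Nat.fermatNumber m)) = 2 ^ (2 ^ m - 2 ^ j + 2))) ∧
    -- the other values of `j`
    (m + 3 ≤ 2 ^ j → (Nat.fermatNumber m).Prime →
      (b : ZMod (Nat.fermatNumber m)) ^ ((Nat.fermatNumber m - 1) / 2 ^ (m + 1)) = 1) ∧
    -- the index modulo `2 ^ (m + 1)`, and the converse
    (2 ≤ j → ∀ Ind : ℕ → Prop,
      (b = 2 ^ (2 ^ j * c) - 1 ∧ Ind = IndMinus m j c ∨
        b = 2 ^ (2 ^ j * c) + 1 ∧ Ind = IndPlus m j c ∨
        b = Nat.fermatNumber j ∧ c = 1 ∧ Ind = IndFermat m j) →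
      (∃ E : ℕ, Ind E) ∧ ∀ E : ℕ, Ind E →
        ((Nat.fermatNumber m).Prime →
          (b : ZMod (Nat.fermatNumber m)) ^ ((Nat.fermatNumber m - 1) / 2 ^ (m + 1)) = 2 ^ E) ∧
        (¬ 2 ^ (m + 1) ∣ E →
          (b : ZMod (Nat.fermatNumber m)) ^ ((Nat.fermatNumber m - 1) / 2 ^ (m + 1)) = 2 ^ E →
            (Nat.fermatNumber m).Prime)) := by
  obtain ⟨h, hh⟩ : ∃ h, m = h + j := ⟨m - j, by omega⟩
  have hh1 : 1 ≤ h := by omega
  have hbig := Pool.Agent.J4.H56.FM.two_mul_lt hm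
  have h0 : 2 ≤ 2 ^ j := by
    calc 2 = 2 ^ 1 := by norm_num
      _ ≤ 2 ^ j := Nat.pow_le_pow_right (by norm_num) hj
  have hjm' : 2 * 2 ^ j ≤ 2 ^ m := by
    rw [← pow_succ']
    exact Nat.pow_le_pow_right (by norm_num) hjm
  have e1 : (Nat.fermatNumber m - 1) / 2 ^ (2 ^ j - 1) = 2 ^ (2 ^ m - 2 ^ j + 1) := by
    rw [Pool.Agent.J4.H56.FM.exp_eq (by omega)]
    congr 1
    omega
  have e2 : (Nat.fermatNumber m - 1) / 2 ^ (m + 1) = 2 ^ (2 ^ m - (m + 1)) :=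
    Pool.Agent.J4.H56.FM.exp_eq (by omega)
  have hMinus := Pool.Agent.J4.H56.FM.minus (c := c) hh hm hh1 hj hc
  have hPlus := Pool.Agent.J4.H56.FM.plus (c := c) hh hm hh1 hj hc
  have c1 : ((2 ^ (2 ^ j * c) - 1 : ℤ) : ZMod (Nat.fermatNumber m)) = 2 ^ (2 ^ j * c) - 1 := by
    push_cast; rfl
  have c2 : ((2 ^ (2 ^ j * c) + 1 : ℤ) : ZMod (Nat.fermatNumber m)) = 2 ^ (2 ^ j * c) + 1 := by
    push_cast; rfl
  rw [e1, e2]
  have hA : 2 ^ j ≤ m + 2 → (Nat.fermatNumber m).Prime →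
      (b : ZMod (Nat.fermatNumber m)) ^ (2 ^ (2 ^ m - 2 ^ j + 1)) = -1 := by
    rcases hb with rfl | rfl
    · rw [c1]; exact hMinus.1
    · rw [c2]; exact hPlus.1
  have hB : m + 3 ≤ 2 ^ j → (Nat.fermatNumber m).Prime →
      (b : ZMod (Nat.fermatNumber m)) ^ (2 ^ (2 ^ m - (m + 1))) = 1 := by
    rcases hb with rfl | rfl
    · rw [c1]; exact hMinus.2.1
    · rw [c2]; exact hPlus.2.1
  refine ⟨?_, hB, ?_⟩
  · intro h1
    refine ⟨⟨hA h1, fun h2 => Pool.Agent.J4.H56.FM.conv_pow (by omega) h2⟩, fun hF => ?_⟩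
    rw [Pool.Agent.J4.H56.FM.order_of (hA h1 hF)]
  · intro hj2 Ind hI
    have key : (∃ E : ℕ, Ind E) ∧ ∀ E : ℕ, Ind E → (Nat.fermatNumber m).Prime →
          (b : ZMod (Nat.fermatNumber m)) ^ (2 ^ (2 ^ m - (m + 1))) = 2 ^ E := by
      have hMinus' : ∀ E, IndMinus m j c E ↔ _ := fun E => indMinus_iff m h j c E hh
      have hPlus' : ∀ E, IndPlus m j c E ↔ _ := fun E => indPlus_iff m h j c E hh hh1 hc
      have kPlus : b = 2 ^ (2 ^ j * c) + 1 →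
          (∃ E : ℕ, IndPlus m j c E) ∧ ∀ E : ℕ, IndPlus m j c E → (Nat.fermatNumber m).Prime →
          (b : ZMod (Nat.fermatNumber m)) ^ (2 ^ (2 ^ m - (m + 1))) = 2 ^ E := by
        rintro rfl
        rw [c2]
        obtain ⟨E, hE⟩ := hPlus.2.2.1 hj2
        exact ⟨⟨E, (hPlus' E).2 hE⟩, fun E hE hF => hPlus.2.2.2 hj2 hF E ((hPlus' E).1 hE)⟩
      rcases hI with ⟨rfl, rfl⟩ | ⟨hb', rfl⟩ | ⟨hb', hc1, rfl⟩
      · rw [c1]
        obtain ⟨E, hE⟩ := hMinus.2.2.1 hj2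
        exact ⟨⟨E, (hMinus' E).2 hE⟩, fun E hE hF => hMinus.2.2.2 hj2 hF E ((hMinus' E).1 hE)⟩
      · exact kPlus hb'
      · subst hc1
        have h3 := kPlus (by rw [hb', mul_one]; unfold Nat.fermatNumber; push_cast; rfl)
        obtain ⟨⟨E, hE⟩, h4⟩ := h3
        exact ⟨⟨E, (indFermat_iff m j E hm).2 hE⟩, fun E hE hF =>
          h4 E ((indFermat_iff m j E hm).1 hE) hF⟩
    exact ⟨key.1, fun E hE => ⟨key.2 E hE, fun h1 h2 =>
      Pool.Agent.J4.H56.FM.conv_E hm h1 h2⟩⟩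

end Pool.Agent.Results.MP_37e5fa_nt.SumsOfTwoPowers
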